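import Pool.Agent.Lib.MP_6bc78b_nt.MS.QZ.Iface

/-! SCL: numerical facts on the scales -/

set_option autoImplicit false

open Complex Filter Topology MeasureTheory ArithmeticFunction

namespace Pool.Agent.Lib.MP_6bc78b_nt.MS.QZ.H16

open Pool.Agent.Lib.MP_6bc78b_nt.MS Pool.Agent.Lib.MP_6bc78b_nt.MS.QZ

theorem q_lt : Real.exp (-(1 / 4 : ℝ)) ≤ 78 / 100 := by
  have h1 : (1 : ℝ) / 4 + 1 ≤ Real.exp (1 / 4) := Real.add_one_le_exp _
  have h2 : (1.283 : ℝ) ≤ Real.exp (1 / 4) := by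
    have h := Real.quadratic_le_exp_of_nonneg (x := (1 / 8 : ℝ)) (by norm_num)
    have h3 : Real.exp (1 / 4 : ℝ) = Real.exp (1 / 8) * Real.exp (1 / 8) := by
      rw [← Real.exp_add]
      norm_num
    rw [h3]
    have h4 : (1.1328 : ℝ) ≤ Real.exp (1 / 8) := by
      refine le_trans ?_ h
      norm_num
    have h5 : (1.1328 : ℝ) * 1.1328 ≤ Real.exp (1 / 8) * Real.exp (1 / 8) :=
      mul_le_mul h4 h4 (by norm_num) (by positivity)
    linarith
  rw [Real.exp_neg]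
  have h3 : (Real.exp (1 / 4 : ℝ))⁻¹ ≤ (1.283 : ℝ)⁻¹ :=
    inv_anti₀ (by norm_num) h2
  refine le_trans h3 ?_
  norm_num

theorem dl_pos {T : ℝ} (hl : 0 < ll T) (j : ℕ) : 0 < dl T j := by
  unfold dl
  positivity

/-- basic facts on `JJ` -/
theorem JJ_facts {T : ℝ} (hl : 10 ^ 7 ≤ ll T) :
    Real.exp ((JJ T : ℝ) - 1) ≤ ll T ^ 2 / 10 ^ 12 ∧
      ll T ^ 2 / 10 ^ 12 ≤ Real.exp (JJ T : ℝ) := by
  have hpos : 0 < ll T ^ 2 / 10 ^ 12 := by
    have : 0 < ll T := by linarith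
    positivity
  have hge : 1 ≤ ll T ^ 2 / 10 ^ 12 := by
    rw [le_div_iff₀ (by norm_num)]
    have : (10 ^ 7 : ℝ) ^ 2 ≤ ll T ^ 2 := pow_le_pow_left₀ (by norm_num) hl 2
    norm_num at this ⊢
    linarith
  have hlog : 0 ≤ Real.log (ll T ^ 2 / 10 ^ 12) := Real.log_nonneg hge
  have hJ : (JJ T : ℝ) = (⌊Real.log (ll T ^ 2 / 10 ^ 12)⌋₊ : ℝ) + 1 := by
    unfold JJ
    push_cast
    ring
  constructor
  · rw [hJ, add_sub_cancel_right]
    calc Real.exp (⌊Real.log (ll T ^ 2 / 10 ^ 12)⌋₊ : ℝ)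
        ≤ Real.exp (Real.log (ll T ^ 2 / 10 ^ 12)) :=
          Real.exp_le_exp.2 (Nat.floor_le hlog)
      _ = ll T ^ 2 / 10 ^ 12 := Real.exp_log hpos
  · rw [hJ]
    calc ll T ^ 2 / 10 ^ 12 = Real.exp (Real.log (ll T ^ 2 / 10 ^ 12)) := (Real.exp_log hpos).symm
      _ ≤ Real.exp (⌊Real.log (ll T ^ 2 / 10 ^ 12)⌋₊ + 1 : ℝ) :=
          Real.exp_le_exp.2 (Nat.lt_floor_add_one _).le

theorem dl_le {T : ℝ} (hl : 10 ^ 7 ≤ ll T) (i : ℕ) :
    dl T i ≤ 1 / 10 ^ 12 * Real.exp (-((JJ T : ℝ) - 1 - i)) := by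
  have hll : 0 < ll T := by linarith
  have h1 := (JJ_facts hl).1
  have h2 : Real.exp (i : ℝ) = Real.exp (-((JJ T : ℝ) - 1 - i)) * Real.exp ((JJ T : ℝ) - 1) := by
    rw [← Real.exp_add]
    congr 1
    ring
  unfold dl
  rw [h2, div_le_iff₀ (by positivity)]
  calc Real.exp (-((JJ T : ℝ) - 1 - i)) * Real.exp ((JJ T : ℝ) - 1)
      ≤ Real.exp (-((JJ T : ℝ) - 1 - i)) * (ll T ^ 2 / 10 ^ 12) :=
        mul_le_mul_of_nonneg_left h1 (Real.exp_pos _).le
    _ = 1 / 10 ^ 12 * Real.exp (-((JJ T : ℝ) - 1 - i)) * ll T ^ 2 := by ring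

/-- the fourth roots -/
theorem dl_root {T : ℝ} (hl : 10 ^ 7 ≤ ll T) (i : ℕ) (hi : i < JJ T) :
    dl T i ^ (1 / 4 : ℝ) ≤ 1 / 10 ^ 3 * Real.exp (-(1 / 4 : ℝ)) ^ (JJ T - 1 - i) := by
  have hll : 0 < ll T := by linarith
  have h1 := dl_le hl i
  have h2 : dl T i ^ (1 / 4 : ℝ) ≤
      (1 / 10 ^ 12 * Real.exp (-((JJ T : ℝ) - 1 - i))) ^ (1 / 4 : ℝ) :=
    Real.rpow_le_rpow (dl_pos hll i).le h1 (by norm_num)
  refine h2.trans (le_of_eq ?_)
  rw [Real.mul_rpow (by norm_num) (Real.exp_pos _).le]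
  congr 1
  · have : (1 / 10 ^ 12 : ℝ) = (1 / 10 ^ 3) ^ (4 : ℝ) := by
      rw [show (4 : ℝ) = ((4 : ℕ) : ℝ) by norm_num, Real.rpow_natCast]
      norm_num
    rw [this, ← Real.rpow_mul (by norm_num)]
    norm_num
  · rw [← Real.exp_mul, ← Real.exp_nat_mul]
    congr 1
    have hc : ((JJ T - 1 - i : ℕ) : ℝ) = (JJ T : ℝ) - 1 - i := by
      rw [Nat.cast_sub (by omega), Nat.cast_sub (by omega)]
      norm_num
    rw [hc]
    ring

theorem sum_root {T : ℝ} (hl : 10 ^ 7 ≤ ll T) :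
    ∑ i ∈ Finset.range (JJ T), dl T i ^ (1 / 4 : ℝ) ≤ 1 / 220 := by
  have hq := q_lt
  have hq0 : 0 ≤ Real.exp (-(1 / 4 : ℝ)) := (Real.exp_pos _).le
  calc ∑ i ∈ Finset.range (JJ T), dl T i ^ (1 / 4 : ℝ)
      ≤ ∑ i ∈ Finset.range (JJ T), 1 / 10 ^ 3 * Real.exp (-(1 / 4 : ℝ)) ^ (JJ T - 1 - i) :=
        Finset.sum_le_sum fun i hi => dl_root hl i (Finset.mem_range.1 hi)
    _ = 1 / 10 ^ 3 * ∑ i ∈ Finset.range (JJ T), Real.exp (-(1 / 4 : ℝ)) ^ i := by
        rw [Finset.sum_range_reflect (fun i => 1 / 10 ^ 3 * Real.exp (-(1 / 4 : ℝ)) ^ i) (JJ T),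
          ← Finset.mul_sum]
    _ ≤ 1 / 10 ^ 3 * ∑ i ∈ Finset.range (JJ T), (78 / 100 : ℝ) ^ i := by
        refine mul_le_mul_of_nonneg_left ?_ (by norm_num)
        exact Finset.sum_le_sum fun i _ => pow_le_pow_left₀ hq0 hq i
    _ ≤ 1 / 10 ^ 3 * (1 / (1 - 78 / 100)) := by
        refine mul_le_mul_of_nonneg_left ?_ (by norm_num)
        rw [geom_sum_eq (by norm_num)]
        have h0 : 0 ≤ (78 / 100 : ℝ) ^ JJ T := by positivity
        have h1 : ((78 / 100 : ℝ) ^ JJ T - 1) / (78 / 100 - 1) =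
            1 / (1 - 78 / 100) - (78 / 100 : ℝ) ^ JJ T / (1 - 78 / 100) := by ring
        have h2 : 0 ≤ (78 / 100 : ℝ) ^ JJ T / (1 - 78 / 100) :=
          div_nonneg h0 (by norm_num)
        rw [h1]
        linarith
    _ ≤ 1 / 220 := by norm_num

theorem scl : SclStatement := by
  refine ⟨Real.exp (Real.exp (10 ^ 7)), ?_, fun T hT => ?_⟩
  · have h1 : (10 ^ 7 : ℝ) + 1 ≤ Real.exp (10 ^ 7) := Real.add_one_le_exp _
    have h2 : Real.exp (10 ^ 7 : ℝ) + 1 ≤ Real.exp (Real.exp (10 ^ 7)) := Real.add_one_le_exp _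
    norm_num at h1 h2 ⊢
    linarith
  have hlog : Real.exp (10 ^ 7) ≤ Real.log T := by
    rw [Real.le_log_iff_exp_le (lt_of_lt_of_le (Real.exp_pos _) hT)]
    exact hT
  have hl : (10 : ℝ) ^ 7 ≤ ll T := by
    unfold ll
    rw [Real.le_log_iff_exp_le (lt_of_lt_of_le (Real.exp_pos _) hlog)]
    exact hlog
  have hll : 0 < ll T := by linarith
  have hdl : ∀ j, j < JJ T → 0 < dl T j ∧ dl T j ≤ 1 / 10 ^ 12 := by
    intro j hj
    refine ⟨dl_pos hll j, (dl_le hl j).trans ?_⟩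
    have h1 : Real.exp (-((JJ T : ℝ) - 1 - j)) ≤ 1 := by
      rw [Real.exp_le_one_iff]
      have : (j : ℝ) + 1 ≤ JJ T := by exact_mod_cast hj
      linarith
    calc 1 / 10 ^ 12 * Real.exp (-((JJ T : ℝ) - 1 - j)) ≤ 1 / 10 ^ 12 * 1 :=
          mul_le_mul_of_nonneg_left h1 (by norm_num)
      _ = 1 / 10 ^ 12 := by ring
  have hRK : ∀ j, j < JJ T → 1 ≤ RJ T j ∧ 10 * RJ T j ≤ KJ T j ∧ (KJ T j : ℝ) ≤ 11 * RJ T j := by
    intro j hj
    obtain ⟨hp, hle⟩ := hdl j hj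
    have hR : 1 ≤ RJ T j := by
      unfold RJ
      refine Real.one_le_rpow_of_pos_of_le_one_of_nonpos hp (hle.trans ?_) (by norm_num)
      norm_num
    refine ⟨hR, Nat.le_ceil _, ?_⟩
    have := Nat.ceil_lt_add_one (a := 10 * RJ T j) (by linarith)
    unfold KJ
    linarith
  have hsum : ∀ j, j ≤ JJ T → ∑ i ∈ Finset.range j, dl T i * KJ T i ≤ 1 / 20 := by
    intro j hj
    calc ∑ i ∈ Finset.range j, dl T i * KJ T i
        ≤ ∑ i ∈ Finset.range (JJ T), dl T i * KJ T i := by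
          refine Finset.sum_le_sum_of_subset_of_nonneg (Finset.range_subset_range.2 hj) ?_
          intro i _ _
          have := dl_pos hll i
          positivity
      _ ≤ ∑ i ∈ Finset.range (JJ T), 11 * dl T i ^ (1 / 4 : ℝ) := by
          refine Finset.sum_le_sum fun i hi => ?_
          have hi' := Finset.mem_range.1 hi
          have hp := dl_pos hll i
          have h1 := (hRK i hi').2.2
          have h2 : dl T i * RJ T i = dl T i ^ (1 / 4 : ℝ) := by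
            unfold RJ
            nth_rewrite 1 [← Real.rpow_one (dl T i)]
            rw [← Real.rpow_add hp]
            norm_num
          calc dl T i * KJ T i ≤ dl T i * (11 * RJ T i) := mul_le_mul_of_nonneg_left h1 hp.le
            _ = 11 * (dl T i * RJ T i) := by ring
            _ = 11 * dl T i ^ (1 / 4 : ℝ) := by rw [h2]
      _ = 11 * ∑ i ∈ Finset.range (JJ T), dl T i ^ (1 / 4 : ℝ) := by rw [← Finset.mul_sum]
      _ ≤ 11 * (1 / 220) := mul_le_mul_of_nonneg_left (sum_root hl) (by norm_num)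
      _ = 1 / 20 := by norm_num
  have hle1 : ∀ i, i < JJ T → dl T i ≤ 1 := fun i hi => (hdl i hi).2.trans (by norm_num)
  refine ⟨hl, ?_, hdl, ?_, hRK, fun j hj => ⟨hsum j hj, ?_⟩, ?_, ?_⟩
  · -- JJ T ≤ ll T
    have h1 := (JJ_facts hl).1
    have h2 : (JJ T : ℝ) - 1 ≤ Real.log (ll T ^ 2 / 10 ^ 12) := by
      rw [Real.le_log_iff_exp_le (by positivity)]
      exact h1
    have h3 : Real.log (ll T ^ 2 / 10 ^ 12) = 2 * Real.log (ll T / 10 ^ 6) := by
      rw [← Real.log_rpow (by positivity)]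
      congr 1
      rw [show (2 : ℝ) = ((2 : ℕ) : ℝ) by norm_num, Real.rpow_natCast]
      ring
    have h4 : Real.log (ll T / 10 ^ 6) ≤ ll T / 10 ^ 6 - 1 :=
      Real.log_le_sub_one_of_pos (by positivity)
    have h5 : ll T / 10 ^ 6 ≤ ll T / 2 := by
      apply div_le_div_of_nonneg_left hll.le (by norm_num) (by norm_num)
    linarith
  · -- dl at JJ
    obtain ⟨h1, h2⟩ := JJ_facts hl
    have h3 : Real.exp (JJ T : ℝ) = Real.exp ((JJ T : ℝ) - 1) * Real.exp 1 := by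
      rw [← Real.exp_add]
      congr 1
      ring
    have h4 : Real.exp 1 ≤ 3 := by
      have := Real.exp_one_lt_d9
      linarith
    constructor
    · unfold dl
      rw [le_div_iff₀ (by positivity)]
      calc 1 / 10 ^ 12 * ll T ^ 2 = ll T ^ 2 / 10 ^ 12 := by ring
        _ ≤ _ := h2
    · unfold dl
      rw [div_le_iff₀ (by positivity), h3]
      calc Real.exp ((JJ T : ℝ) - 1) * Real.exp 1 ≤ ll T ^ 2 / 10 ^ 12 * 3 :=
            mul_le_mul h1 h4 (Real.exp_pos _).le (by positivity)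
        _ = 3 / 10 ^ 12 * ll T ^ 2 := by ring
  · -- dl * rj
    unfold rj
    split_ifs with h
    · obtain ⟨hp, _⟩ := hdl j h
      have h1 : (rJ T j : ℝ) ≤ 1 / (20 * dl T j) := Nat.floor_le (by positivity)
      calc dl T j * rJ T j ≤ dl T j * (1 / (20 * dl T j)) := mul_le_mul_of_nonneg_left h1 hp.le
        _ = 1 / 20 := by field_simp
    · norm_num
  · -- sum of dl
    calc ∑ i ∈ Finset.range (JJ T), dl T i ≤ ∑ i ∈ Finset.range (JJ T), dl T i ^ (1 / 4 : ℝ) := by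
          refine Finset.sum_le_sum fun i hi => ?_
          have hi' := Finset.mem_range.1 hi
          nth_rewrite 1 [← Real.rpow_one (dl T i)]
          exact Real.rpow_le_rpow_of_exponent_ge (dl_pos hll i) (hle1 i hi') (by norm_num)
      _ ≤ 1 / 220 := sum_root hl
      _ ≤ 1 := by norm_num
  · -- sum of exp
    calc ∑ i ∈ Finset.range (JJ T), Real.exp (-RJ T i)
        ≤ ∑ i ∈ Finset.range (JJ T), dl T i ^ (1 / 4 : ℝ) := by
          refine Finset.sum_le_sum fun i hi => ?_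
          have hi' := Finset.mem_range.1 hi
          have hp := dl_pos hll i
          have hR := (hRK i hi').1
          have h1 : Real.exp (-RJ T i) ≤ (RJ T i)⁻¹ := by
            rw [Real.exp_neg]
            refine inv_anti₀ (by linarith) ?_
            have := Real.add_one_le_exp (RJ T i)
            linarith
          have h2 : (RJ T i)⁻¹ = dl T i ^ (3 / 4 : ℝ) := by
            unfold RJ
            rw [Real.rpow_neg hp.le, inv_inv]
          rw [h2] at h1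
          exact h1.trans (Real.rpow_le_rpow_of_exponent_ge hp (hle1 i hi') (by norm_num))
      _ ≤ 1 / 220 := sum_root hl
      _ ≤ 1 := by norm_num

end Pool.Agent.Lib.MP_6bc78b_nt.MS.QZ.H16
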